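import Pool.Agent.Lib_helper25.ET.Fin

/-!
MP_861054_an, Q1 (tori): for every smooth Riemannian metric on the torus whose geodesic flow is
ergodic, bounded lifted geodesics have measure zero, two typical lifted geodesics that cross once
cross infinitely often, and either `T_i` has full measure or almost every lifted geodesic tends to
infinity but still meets every sector and every half-strip of the plane.
-/

theorem Pool.Agent.Results.MP_861054_an.ErgodicTori.result : Pool.Agent.ET.Statement :=
  Pool.Agent.ET.main
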